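import Pool.Agent.Q85.SG.Main

/-!
# Number fields of degree `n` and of every signature with `m`-rank of the class group `≥ r₂ + 3`
-/

set_option autoImplicit false

namespace Pool.Agent.Results.MP_176ace_nt.AllSignatures

open NumberField

/-- For all `n ≥ 4`, all `r ≤ n / 2` and all `m ≥ 2` there are number fields of degree `n` with
exactly `r` complex places and of arbitrarily large discriminant whose class group contains
`(ℤ/m)^(r+3)`. -/
theorem result :
    ∀ n r m : ℕ, 4 ≤ n → 2 * r ≤ n → 2 ≤ m → ∀ N : ℕ,
      ∃ (K : Type) (_ : Field K) (_ : NumberField K), Module.finrank ℚ K = n ∧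
        InfinitePlace.nrComplexPlaces K = r ∧ (N : ℤ) < |discr K| ∧
        ∃ f : Multiplicative (Fin (r + 3) → ZMod m) →* ClassGroup (𝓞 K),
          Function.Injective f :=
  fun n r m hn hr hm N => Q85.SG.main n r m hn hr hm N

end Pool.Agent.Results.MP_176ace_nt.AllSignatures
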