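import Pool.Agent.Q84.CGL.L3

/-!
# Class groups of large `m`-rank: fields of given degree and signature with prescribed split and totally ramified primes

Let `n ≥ 4` and `0 ≤ r ≤ n / 2`. There is a finite set `E` of primes, depending only on `n` and `r`, such that for all `m ≥ 2` and all finite
disjoint sets `T₁`, `T₂` of primes outside `E`, the primes of `T₂` not dividing `m`, there are number fields `K` of degree `n` with exactly `r`
complex places and of arbitrarily large discriminant such that

* the class group of `K` contains `(ℤ / m) ^ (r + 3)`;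
* every prime of `T₁` splits completely in `K`;
* every prime of `T₂` is totally ramified in `K`.

The fields are those of the starting files: `K = ℚ(θ)`, `L A(θ) = - s ^ m`, where `A = ∏ (X - a i)` takes the same value `c` at three further
points and `L c = t ^ m - s ^ m`. New: `s` and `t` with `p ∣ s` for the primes `p` of `T₁` and `t - s` divisible exactly once by the primes of
`T₂`, besides the conditions which give the rank. The configurations `A` for all signatures are from the file `AllSignatures` of this row.
-/

set_option autoImplicit false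

namespace Pool.Agent.Results.MP_176ace_nt.LocalConditions

open NumberField IsDedekindDomain

/-- **Theorem.** (`p` splits completely: there are `n` different embeddings of `K` in `ℚ_p`; `p` is totally ramified: the ideal `(p)` is the
`n`-th power of a prime ideal.) -/
theorem result (n r : ℕ) (hn : 4 ≤ n) (hr : 2 * r ≤ n) : ∃ E : Finset ℕ, ∀ m : ℕ, 2 ≤ m →
    ∀ T₁ T₂ : Finset ℕ, (∀ p ∈ T₁, p.Prime ∧ p ∉ E) → (∀ p ∈ T₂, p.Prime ∧ p ∉ E ∧ ¬ p ∣ m) → Disjoint T₁ T₂ →
    ∀ N : ℕ, ∃ (K : Type) (_ : Field K) (_ : NumberField K), Module.finrank ℚ K = n ∧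
      InfinitePlace.nrComplexPlaces K = r ∧ (N : ℤ) < |discr K| ∧
      (∀ (p : ℕ) [Fact p.Prime], p ∈ T₁ → ∃ φ : Fin n → (K →+* ℚ_[p]), Function.Injective φ) ∧
      (∀ p ∈ T₂, ∃ v : HeightOneSpectrum (𝓞 K), v.asIdeal ^ n = Ideal.span {((p : ℕ) : 𝓞 K)}) ∧
      ∃ f : Multiplicative (Fin (r + 3) → ZMod m) →* ClassGroup (𝓞 K), Function.Injective f :=
  Pool.Agent.Q84.CGL.main n r hn hr

end Pool.Agent.Results.MP_176ace_nt.LocalConditions
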