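import Pool.Agent.Q199.SG.Field
import Pool.Agent.Q199.SG.Six4

/-!
# Class groups of `m`-rank at least `r₂ + 6` in every signature, for all `m` and all large degrees
-/

set_option autoImplicit false

namespace Pool.Agent.Results.MP_176ace_nt.SignaturesExcessSix

open NumberField Pool.Agent Pool.Agent.Q199.SG

/-- Let `n ≥ 46` or `n` one of `35`, `37`, `40`, `41`, `42`, `43`, `44`, and let `0 ≤ r ≤ n/2` be
arbitrary. For every `m ≥ 2` there are number fields of degree `n` with exactly `r` complex places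
and of arbitrarily large discriminant whose class group contains `(ℤ/m)^(r+6)`. -/
theorem result :
    ∀ n r m : ℕ, (n ∈ [35, 37, 40, 41, 42, 43, 44] ∨ 46 ≤ n) → 2 * r ≤ n → 2 ≤ m → ∀ N : ℕ,
      ∃ (K : Type) (_ : Field K) (_ : NumberField K), Module.finrank ℚ K = n ∧
        InfinitePlace.nrComplexPlaces K = r ∧ (N : ℤ) < |discr K| ∧
        ∃ f : Multiplicative (Fin (r + 6) → ZMod m) →* ClassGroup (𝓞 K),
          Function.Injective f := by
  intro n r m hn hr hm N
  have hn2 : 35 ≤ n := by
    simp only [List.mem_cons, List.not_mem_nil, or_false] at hn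
    omega
  by_cases hr0 : r = 0
  · obtain ⟨D, -⟩ := gap_all n 1 hn le_rfl (by omega)
    obtain ⟨-, K, hK1, hK2, h1, h2, h3, h4⟩ :=
      W289.CG.main n 6 (by omega) (by omega) ⟨D⟩ m N hm
    refine ⟨K, hK1, hK2, h1, ?_, h3, ?_⟩
    · have h8 := InfinitePlace.card_add_two_mul_card_eq_rank K
      omega
    · rw [hr0, Nat.zero_add]
      exact h4
  obtain ⟨D, v₁, v₂, h1, h2, h3⟩ := gap_all n r hn (by omega) (by omega)
  exact field_of (by omega) (by omega) D r hr v₁ v₂ h1 h2 h3 m N hm

end Pool.Agent.Results.MP_176ace_nt.SignaturesExcessSix
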