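import Pool.Agent.Q199.SG.Field
import Pool.Agent.Q199.SG.Small2

/-!
# Class groups of large `m`-rank in the intermediate signatures of small degree, for all `m`
-/

set_option autoImplicit false

namespace Pool.Agent.Results.MP_176ace_nt.SignaturesSmallDegree

open NumberField Pool.Agent Pool.Agent.Q199.SG

/-- Let `n` be `5`, `6`, `7` or `9` and `0 ≤ r ≤ n/2` arbitrary, or let `(n, r)` be one of `(8, 2)`,
`(10, 1)`, `(10, 3)`, `(12, 2)`, `(12, 4)`. For every `m ≥ 2` there are number fields of degree `n`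
with exactly `r` complex places and of arbitrarily large discriminant whose class group contains
`(ℤ/m)^(r+n-1)`. -/
theorem result :
    ∀ n r m : ℕ, (n ∈ [5, 6, 7, 9] ∧ 2 * r ≤ n ∨
        (n, r) ∈ [(8, 2), (10, 1), (10, 3), (12, 2), (12, 4)]) → 2 ≤ m → ∀ N : ℕ,
      ∃ (K : Type) (_ : Field K) (_ : NumberField K), Module.finrank ℚ K = n ∧
        InfinitePlace.nrComplexPlaces K = r ∧ (N : ℤ) < |discr K| ∧
        ∃ f : Multiplicative (Fin (r + (n - 1)) → ZMod m) →* ClassGroup (𝓞 K),
          Function.Injective f := by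
  intro n r m h m2 N
  have hn : n = 5 ∨ n = 6 ∨ n = 7 ∨ n = 8 ∨ n = 9 ∨ n = 10 ∨ n = 12 := by
    simp only [List.mem_cons, List.not_mem_nil, or_false, Prod.mk.injEq] at h
    omega
  have hr : 2 * r ≤ n := by
    simp only [List.mem_cons, List.not_mem_nil, or_false, Prod.mk.injEq] at h
    omega
  have hD : Nonempty (W289.CG.Dat n (n - 1)) := W21.CG.small n (by omega)
  by_cases hr0 : r = 0
  · obtain ⟨-, K, hK1, hK2, h1, h2, h3, h4⟩ :=
      W289.CG.main n (n - 1) (by omega) (by omega) hD m N m2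
    refine ⟨K, hK1, hK2, h1, ?_, h3, ?_⟩
    · have h8 := InfinitePlace.card_add_two_mul_card_eq_rank K
      omega
    · rw [hr0, Nat.zero_add]
      exact h4
  by_cases hr1 : r = n / 2
  · obtain ⟨⟨K, hK1, hK2, h1, h2, h3, h4⟩, -⟩ :=
      W289.CG.main n (n - 1) (by omega) (by omega) hD m N m2
    refine ⟨K, hK1, hK2, h1, ?_, h3, ?_⟩
    · have h8 := InfinitePlace.card_add_two_mul_card_eq_rank K
      omega
    · rw [hr1]
      exact h4
  have hgap : Gap n (n - 1) r := by
    simp only [List.mem_cons, List.not_mem_nil, or_false, Prod.mk.injEq] at h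
    rcases h with ⟨rfl | rfl | rfl | rfl, -⟩ | h
    · exact g5 r (by omega) (by omega)
    · exact g6 r (by omega) (by omega)
    · exact g7 r (by omega) (by omega)
    · exact g9 r (by omega) (by omega)
    · rcases h with ⟨rfl, rfl⟩ | ⟨rfl, rfl⟩ | ⟨rfl, rfl⟩ | ⟨rfl, rfl⟩ | ⟨rfl, rfl⟩
      · exact gs8_2
      · exact gs10_1
      · exact gs10_3
      · exact gs12_2
      · exact gs12_4
  obtain ⟨D, v₁, v₂, h1, h2, h3⟩ := hgap
  exact field_of (by omega) (by omega) D r hr v₁ v₂ h1 h2 h3 m N m2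

end Pool.Agent.Results.MP_176ace_nt.SignaturesSmallDegree
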